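import Pool.Agent.Helper74.LE.GoalsH

/-! Packet LE-UA1 (MP_cc6379_al): type A, `m_bc = 2`, first case. -/

set_option autoImplicit false

open LaurentPolynomial Pool.Agent.Helper15.RA Pool.Agent.Helper45.AM Pool.Agent.Helper74.LL Pool.Agent.Helper74.LE

noncomputable section

namespace Pool.Agent.Helper78.LE.UA1

theorem t (kd1 : KD1) (kd2 : KD2) (hwt : HWT) (hw0 : HW0) (hrl : HRL) (ra1 : RA1) (ulow : ULOW) : UA1 := by
  intro S W H _ _ _ X M n a b c x y hId hN0 hN1 hab hac hbc hx hy hR hL hn hna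
  have lg : Lg X.M := ⟨X.fin, X.mat, X.big⟩
  obtain ⟨-, hpos, -, hw⟩ := hwt S W H X
  obtain ⟨-, -, hal⟩ := hw0 S W H X
  obtain ⟨k1, k2, -, -, -, k6, -, -, -, -, kcom⟩ := kd2 S W X.M X.cs
  have hsym : ∀ i j, X.M i j = X.M j i := fun i j => X.M.symmetric i j
  have hbc' : b ≠ c := by
    rintro rfl
    rw [X.M.diagonal] at hbc
    omega
  have hMac : X.M a c ≠ 2 := fun h => hab (X.mat c a b (by rw [hsym]; exact h) (by rw [hsym]; exact hbc))
  have hMab : X.M a b ≠ 2 := fun h => hac (X.mat b a c (by rw [hsym]; exact h) hbc)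
  have lc1 : ∀ i, X.cs.length (X.cs.simple i) = 1 := fun i => X.cs.length_simple i
  -- the left factor
  have hxa : X.cs.length (x * X.cs.simple a) = X.cs.length x + 1 := hx a (by simp)
  have hRa : X.cs.IsRightDescent (x * X.cs.simple a) a := by
    rw [X.cs.isRightDescent_iff, mul_assoc, X.cs.simple_mul_simple_self, mul_one, hxa]
  obtain ⟨⟨x5, hx5, hx5e, hx5l⟩, -, -⟩ := k1 a c hac (X.fin a c) _ hRa hR
  -- the right factor
  have hby : X.cs.length (X.cs.simple b * y) = X.cs.length y + 1 := hy b (by simp)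
  have hbby : X.cs.simple b * (X.cs.simple b * y) = y := by
    rw [← mul_assoc, X.cs.simple_mul_simple_self, one_mul]
  have hLb : X.cs.IsLeftDescent (X.cs.simple b * y) b := by
    rw [X.cs.isLeftDescent_iff, hbby, hby]
  obtain ⟨-, hcy, -⟩ := k2 b c hbc' (X.fin b c) _ hLb hL
  rw [hbby] at hcy
  set y5 := X.cs.simple c * y with hy5
  have hy5e : X.cs.simple c * y5 = y := by
    rw [hy5, ← mul_assoc, X.cs.simple_mul_simple_self, one_mul]
  have hy5l : X.cs.length y5 + 1 = X.cs.length y := by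
    rw [X.cs.isLeftDescent_iff] at hcy
    exact hcy
  have hncy5 : ¬ X.cs.IsLeftDescent y5 c := by
    rw [X.cs.not_isLeftDescent_iff, hy5e]
    omega
  have hnby5 : ¬ X.cs.IsLeftDescent y5 b := by
    intro h
    have h1 := k6 c b y5 (by rw [hsym]; exact hbc) hncy5 h
    rw [hy5e, X.cs.isLeftDescent_iff] at h1
    omega
  have hXL : XL X.cs {b, c} y5 := by
    intro i hi
    rcases hi with rfl | hi
    · exact (X.cs.not_isLeftDescent_iff).1 hnby5
    · rw [Set.mem_singleton_iff] at hi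
      subst hi
      exact (X.cs.not_isLeftDescent_iff).1 hncy5
  have hx5a : x5 * w0 X.cs a c * X.cs.simple a = x := by
    rw [← hx5e, mul_assoc, X.cs.simple_mul_simple_self, mul_one]
  obtain ⟨-, hra⟩ := ra1 S W X.M X.cs lg a b c x5 y5 hab hac hbc hx5 (by rw [hx5a]; exact hx) hXL
  obtain ⟨hr1, hr2⟩ := hra hna
  -- lengths
  have e1 : X.cs.length (x5 * w0 X.cs a c) = X.cs.length x5 + X.M a c := by rw [← hx5e]; exact hx5l
  have e2 : X.cs.length (x5 * w0 X.cs a c * X.cs.simple c) + 1 =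
      X.cs.length (x5 * w0 X.cs a c) := by
    rw [← hx5e]
    exact (X.cs.isRightDescent_iff).1 hR
  have e2' : x5 * (w0 X.cs a c * X.cs.simple c) = x5 * w0 X.cs a c * X.cs.simple c :=
    (mul_assoc _ _ _).symm
  rw [e2'] at hr1
  have e3 : X.cs.length (X.cs.simple b * y5) = X.cs.length y5 + 1 :=
    (X.cs.not_isLeftDescent_iff).1 hnby5
  have e4 : X.cs.simple b * y = X.cs.simple c * (X.cs.simple b * y5) := by
    rw [← mul_assoc, ← kcom b c hbc, mul_assoc, hy5e]
  -- products
  have p1 : X.D.t (X.cs.simple b * y) = X.D.t (X.cs.simple c) * X.D.t (X.cs.simple b * y5) := by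
    rw [X.D.mul _ _ (by rw [← e4, hby, lc1, e3]; omega), ← e4]
  have p2 : X.D.t (x5 * w0 X.cs a c) * X.D.t (X.cs.simple b * y5) =
      X.D.t (x5 * w0 X.cs a c * (X.cs.simple b * y5)) :=
    X.D.mul _ _ (by rw [hr2, e1, e3]; omega)
  have p3 : X.D.t (x5 * w0 X.cs a c * X.cs.simple c) * X.D.t (X.cs.simple b * y5) =
      X.D.t (x5 * w0 X.cs a c * X.cs.simple c * (X.cs.simple b * y5)) :=
    X.D.mul _ _ (by rw [hr1, e3]; omega)
  -- weights
  have la := hpos a
  have lb := hpos b
  have lcp := hpos c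
  obtain ⟨hwac, -, -, -, -, -, -⟩ := hw a c hac
  obtain ⟨hwab, -, -, -, -, -, -⟩ := hw a b hab
  obtain ⟨-, hwbc, -, -, -, -, -⟩ := hw b c hbc'
  have hwac := hwac hMac
  have hwab := hwab hMab
  have hwbc := hwbc hbc
  simp only [TE.l]
  set La := X.L (X.cs.simple a) with hLa
  set Lb := X.L (X.cs.simple b) with hLb'
  set Lc := X.L (X.cs.simple c) with hLc
  have hge : ∀ p q, p ≠ q → ∀ k, k ≤ X.L (w0 X.cs p q) → X.Ge k (w0 X.cs p q) := by
    intro p q hpq k hk
    have hpar : w0 X.cs p q ∈ par X.cs {p, q} :=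
      (kd1 S W X.M X.cs p q hpq (X.fin p q)).1.1
    refine ⟨1, w0 X.cs p q, 1, {p, q}, Or.inr ⟨p, q, rfl⟩, hpar, by rw [one_mul, mul_one],
      by rw [X.cs.length_one]; omega, ?_⟩
    rw [(hal p q hpq).1]
    exact hk
  have hl2 : X.cs.length (X.cs.simple a * X.cs.simple b) = 2 :=
    (kd1 S W X.M X.cs a b hab (X.fin a b)).2.2.2.2.2.2.2.2.1
  have q1 : X.D.t x * X.D.t (X.cs.simple a * X.cs.simple b) * X.D.t y =
      X.D.t (x * X.cs.simple a) * X.D.t (X.cs.simple b * y) := by
    rw [← X.D.mul (X.cs.simple a) (X.cs.simple b) (by rw [hl2, lc1, lc1]),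
      ← X.D.mul x (X.cs.simple a) (by rw [hxa, lc1]),
      ← X.D.mul (X.cs.simple b) y (by rw [hby, lc1]; omega)]
    simp only [mul_assoc]
  -- low level
  have hU : ∀ K : ℤ, 0 ≤ K → M < X.L (w0 X.cs a c) → (M : ℤ) - La - Lb ≤ K →
      (M : ℤ) - 2 * La - 2 * Lc ≤ K →
      X.LP M K (X.D.t x * X.D.t (X.cs.simple a * X.cs.simple b) * X.D.t y) := by
    intro K hK hM h1 h2
    refine ulow S W H X M n K a b c x x5 y hId hN0 hN1 hab hac hbc' hMac hx hy hx5 hx5e hn
      (hge a c hac _ hM) h1 h2 ?_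
    have p4 : X.D.t (x5 * w0 X.cs a c * X.cs.simple c) * X.D.t (X.cs.simple c) =
        X.D.t (x5 * w0 X.cs a c) := by
      rw [X.D.mul _ _ (by rw [mul_assoc, X.cs.simple_mul_simple_self, mul_one, lc1]; omega),
        mul_assoc, X.cs.simple_mul_simple_self, mul_one]
    rw [e2', p1, ← mul_assoc, p4, p2]
    exact TE.LP.mono (TE.LP.t M _) (by simp only [TE.l]; omega)
  -- direct
  have hD0 : ∀ K : ℤ, 1 ≤ K →
      X.LP M K (xi Lc • X.D.t (x5 * w0 X.cs a c * (X.cs.simple b * y5))) →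
      X.LP M K (X.D.t x * X.D.t (X.cs.simple a * X.cs.simple b) * X.D.t y) := by
    intro K hK h1
    obtain ⟨-, -, -, -, hq, -⟩ := g_h1 S W H X.M X.cs X.L X.D.toHecke0
    have q2 : X.D.t (x5 * w0 X.cs a c) * X.D.t (X.cs.simple c) =
        xi (X.L (X.cs.simple c)) • X.D.t (x5 * w0 X.cs a c) +
          X.D.t (x5 * w0 X.cs a c * X.cs.simple c) := hq c (x5 * w0 X.cs a c) e2
    rw [q1, hx5e, p1, ← mul_assoc, q2, add_mul, smul_mul_assoc, p2, p3]
    exact TE.LP.add h1 (TE.LP.mono (TE.LP.t M _) hK)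
  have hD : ∀ K : ℤ, (Lc : ℤ) + 1 ≤ K →
      X.LP M K (X.D.t x * X.D.t (X.cs.simple a * X.cs.simple b) * X.D.t y) := by
    intro K hK
    exact hD0 K (by omega) (TE.LP.smul_xi (TE.LP.t M _) hK)
  refine ⟨fun hM => ?_, fun hM => ?_⟩
  · by_cases h1 : La + Lb + Lc + 1 ≤ M
    · exact hD _ (by omega)
    · exact hU _ (by omega) (by omega) le_rfl (by omega)
  · by_cases hlab : Lb ≤ La
    · rw [max_eq_left (by exact_mod_cast hlab)]
      rw [max_eq_left hlab] at hM
      by_cases h1 : La + Lc + 1 ≤ M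
      · exact hD _ (by omega)
      · exact hU _ (by omega) (by omega) (by omega) (by omega)
    · rw [max_eq_right (by exact_mod_cast (le_of_lt (not_le.1 hlab)))]
      rw [max_eq_right (le_of_lt (not_le.1 hlab))] at hM
      have hw0bc : w0 X.cs b c = X.cs.simple b * X.cs.simple c :=
        ((kd1 S W X.M X.cs b c hbc' (X.fin b c)).2.2.2.2.2.2.2.1 hbc).1
      by_cases h1 : Lb + Lc + 1 ≤ M
      · exact hD _ (by omega)
      by_cases h2 : M = Lb + Lc
      · refine hD0 _ (by omega) (TE.LP.smul_xi (k := 0) (TE.LP.t_of_ge ?_) (by omega))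
        refine ⟨x5 * w0 X.cs a c * X.cs.simple c, w0 X.cs b c, y5, {b, c}, Or.inr ⟨b, c, rfl⟩,
          (kd1 S W X.M X.cs b c hbc' (X.fin b c)).1.1, ?_, ?_, ?_⟩
        · rw [hw0bc, kcom b c hbc]
          rw [show x5 * w0 X.cs a c * X.cs.simple c * (X.cs.simple c * X.cs.simple b) * y5 =
            x5 * w0 X.cs a c * (X.cs.simple c * X.cs.simple c) * (X.cs.simple b * y5) by
              simp only [mul_assoc], X.cs.simple_mul_simple_self, mul_one]
        · rw [hr2, (kd1 S W X.M X.cs b c hbc' (X.fin b c)).1.2.2.2.1]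
          omega
        · rw [(hal b c hbc').1, hwbc]
          omega
      · -- `M < L_b + L_c`
        have hrl' := (hrl S W H X M ((M : ℤ) - Lb) b c (X.D.t x * X.D.t (X.cs.simple a)) hbc' hId
          (hge b c hbc' _ (by omega))).2 y5 hXL
        have hby' : w0 X.cs b c * y5 = X.cs.simple b * y := by
          rw [hw0bc, mul_assoc, hy5e]
        have q3 : X.D.t x * X.D.t (X.cs.simple a) = X.D.t (x * X.cs.simple a) :=
          X.D.mul _ _ (by rw [hxa, lc1])
        rw [q1, ← hby', ← q3]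
        refine hrl' ?_
        intro z hz hzne
        have hzl := ((kd1 S W X.M X.cs b c hbc' (X.fin b c)).2.1 z hz).2.1 hzne
        rw [hbc] at hzl
        rw [hwbc]
        rcases Nat.lt_or_ge (X.cs.length z) 1 with h0 | h0
        · have hz1 : z = 1 := (X.cs.length_eq_zero_iff).1 (by omega)
          subst hz1
          rw [one_mul, q3]
          have h := hN0 (x * X.cs.simple a) y5 (by rw [hxa]; omega)
          have hL1 : X.L 1 = 0 := (hwt S W H X).1
          rw [hL1]
          refine TE.LP.mono h ?_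
          push_cast
          omega
        · have hz1 : X.cs.length z = 1 := by omega
          rcases ((kd1 S W X.M X.cs b c hbc' (X.fin b c)).2.2.2.2.2.1 z hz).1 hz1 with rfl | rfl
          · rw [q3, hx5e, p2]
            refine TE.LP.mono (TE.LP.t M _) ?_
            push_cast
            omega
          · rw [hy5e]
            have h := hN1 x y a (by
              rw [X.cs.not_isRightDescent_iff]
              exact hxa) (by
              rw [X.cs.not_isLeftDescent_iff]
              exact hy a (by simp)) (by omega)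
            refine TE.LP.mono h ?_
            push_cast
            omega

end Pool.Agent.Helper78.LE.UA1
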